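import Mathlib
import Pool.Agent.H34.L.TH161.KS.Defs

set_option autoImplicit false

open Finset Filter Topology
open scoped Classical

namespace Pool.Agent.TH541.KS_GOOD

open Pool.Agent.TH161.LW Pool.Agent.TH161.KS

section aux

variable {α : Type} [Fintype α] [PartialOrder α] {M : ℕ}

lemma pr_mul (hne : (Om α M).Nonempty) (p : (α → ℕ) → Prop) [inst : DecidablePred p] :
    pr α M p * ((Om α M).card : ℝ) = (((Om α M).filter p).card : ℝ) := by
  have h : ((Om α M).card : ℝ) ≠ 0 := by
    have := hne.card_pos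
    positivity
  have e : inst = fun a => Classical.propDecidable (p a) := Subsingleton.elim _ _
  subst e
  unfold Pool.Agent.TH161.KS.pr
  field_simp

lemma markov (hne : (Om α M).Nonempty) (S : Finset α) (P : α → (α → ℕ) → Prop) (E T : ℝ)
    (hE : ∑ z ∈ S, pr α M (P z) ≤ E) :
    T * (((Om α M).filter fun f => T < ((S.filter fun z => P z f).card : ℝ)).card : ℝ) ≤
      E * ((Om α M).card : ℝ) := by
  have hn : (0 : ℝ) < ((Om α M).card : ℝ) := by
    have := hne.card_pos
    exact_mod_cast this
  have h1 : T * (((Om α M).filter fun f => T < ((S.filter fun z => P z f).card : ℝ)).card : ℝ) ≤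
      ∑ f ∈ (Om α M).filter fun f => T < ((S.filter fun z => P z f).card : ℝ),
        ((S.filter fun z => P z f).card : ℝ) := by
    rw [mul_comm, ← nsmul_eq_mul]
    apply Finset.card_nsmul_le_sum
    intro f hf
    exact (Finset.mem_filter.1 hf).2.le
  have h2 : ∑ f ∈ (Om α M).filter fun f => T < ((S.filter fun z => P z f).card : ℝ),
        ((S.filter fun z => P z f).card : ℝ) ≤ ∑ f ∈ Om α M, ((S.filter fun z => P z f).card : ℝ) := by
    apply Finset.sum_le_sum_of_subset_of_nonneg (Finset.filter_subset _ _)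
    intro i _ _
    positivity
  have h3 : ∑ f ∈ Om α M, ((S.filter fun z => P z f).card : ℝ) =
      ∑ z ∈ S, (((Om α M).filter (P z)).card : ℝ) := by
    have : ∀ f : α → ℕ, ((S.filter fun z => P z f).card : ℝ) = ∑ z ∈ S, if P z f then (1 : ℝ) else 0 := by
      intro f
      rw [Finset.card_filter]
      push_cast
      rfl
    simp_rw [this]
    rw [Finset.sum_comm]
    apply Finset.sum_congr rfl
    intro z _
    rw [Finset.card_filter]
    push_cast
    rfl
  have h4 : ∑ z ∈ S, (((Om α M).filter (P z)).card : ℝ) = (∑ z ∈ S, pr α M (P z)) * ((Om α M).card : ℝ) := by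
    rw [Finset.sum_mul]
    apply Finset.sum_congr rfl
    intro z _
    rw [pr_mul hne]
  calc _ ≤ _ := h1
    _ ≤ _ := h2
    _ = _ := h3
    _ = _ := h4
    _ ≤ _ := by gcongr

end aux

theorem t_GOOD : P_GOOD := by
  intro c C C' c' hFl hVi α _ _ M hstd R hcR hH1 L η N K₀ s δ x y Z π w hL hLR hη hs hδ hxy hπ hZN
    hNK hK₀ hw
  obtain ⟨hc0, hc1, hC1, hFl⟩ := hFl
  obtain ⟨hC'1, hc'0, hVi⟩ := hVi
  obtain ⟨-, hFl2⟩ := hFl α M hstd R hcR hH1
  have hVi := hVi α M hstd R hcR hH1 L hL hLR y
  have hne := hstd.ne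
  have hR0 : 0 < R := lt_of_lt_of_le (by positivity) hcR
  have hL0 : 0 < L := by linarith
  have hLR0 : 0 < L * R := by positivity
  have hC0 : 0 < C := by linarith
  have hC'0 : 0 < C' := by linarith
  have hn : (0 : ℝ) < ((Om α M).card : ℝ) := by
    have := hne.card_pos
    exact_mod_cast this
  have hu : 0 < unit α M := lt_of_lt_of_le one_pos hstd.unit_ge
  set n : ℝ := ((Om α M).card : ℝ) with hndef
  -- thresholds
  set T₁ : ℝ := 544 * C * L * R * Real.exp (-(δ / (9 * (η * R + 1)))) with hT₁
  set T₂ : ℝ := 16 * C' * L * R * Real.exp (-(c' * L)) with hT₂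
  have hT₁0 : 0 < T₁ := by positivity
  have hT₂0 : 0 < T₂ := by positivity
  -- bad events
  set B₁ : (α → ℕ) → Prop := fun f => T₁ < (((univ.filter fun z : α => |hh M z - hh M x| ≤ 2 * L * R).filter
    fun z => δ ≤ |dd M (π z) z f|).card : ℝ) with hB₁
  set B₂ : (α → ℕ) → Prop := fun f => T₂ < (((univ.filter fun z : α => 2 * L * R < |hh M z - hh M x|).filter
    fun z => |hh M z - hh M y| / 2 ≤ |dd M y z f - (hh M z - hh M y)|).card : ℝ) with hB₂
  set B₃ : (α → ℕ) → Prop := fun f => ∃ z ∈ Z.filter fun z => tau M y z < s,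
    K₀ * s ≤ |dd M y z f - (hh M z - hh M y)| with hB₃
  have hb1 : (((Om α M).filter B₁).card : ℝ) ≤ n / 16 := by
    have h := markov hne (univ.filter fun z : α => |hh M z - hh M x| ≤ 2 * L * R)
      (fun z f => δ ≤ |dd M (π z) z f|) (T₁ / 16) T₁ ?_
    · have h' : T₁ * (((Om α M).filter B₁).card : ℝ) ≤ T₁ * (n / 16) := by
        calc _ ≤ _ := h
          _ = _ := by ring
      exact le_of_mul_le_mul_left h' hT₁0
    · have hS : ∀ z ∈ (univ.filter fun z : α => |hh M z - hh M x| ≤ 2 * L * R),
          pr α M (fun f => δ ≤ |dd M (π z) z f|) ≤ 17 * Real.exp (-(δ / (9 * (η * R + 1)))) := by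
        intro z hz
        have hz' := (Finset.mem_filter.1 hz).2
        have hr := (hπ z hz').2
        have h := hstd.tail (π z) z 0 (η * R) δ (by
          simpa [rho] using hr)
        simpa using h
      refine (Finset.sum_le_card_nsmul _ _ _ hS).trans ?_
      rw [nsmul_eq_mul]
      have hcard := hFl2 x (2 * L * R) (by nlinarith)
      calc _ ≤ (C * (2 * L * R)) * (17 * Real.exp (-(δ / (9 * (η * R + 1))))) := by gcongr
        _ = T₁ / 16 := by rw [hT₁]; ring
  have hb2 : (((Om α M).filter B₂).card : ℝ) ≤ n / 16 := by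
    have h := markov hne (univ.filter fun z : α => 2 * L * R < |hh M z - hh M x|)
      (fun z f => |hh M z - hh M y| / 2 ≤ |dd M y z f - (hh M z - hh M y)|) (T₂ / 16) T₂ ?_
    · have h' : T₂ * (((Om α M).filter B₂).card : ℝ) ≤ T₂ * (n / 16) := by
        calc _ ≤ _ := h
          _ = _ := by ring
      exact le_of_mul_le_mul_left h' hT₂0
    · have hsub : (univ.filter fun z : α => 2 * L * R < |hh M z - hh M x|) ⊆
          (univ.filter (fun z : α => L * R < |hh M z - hh M y|)) := by
        intro z hz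
        have hz' := (Finset.mem_filter.1 hz).2
        refine Finset.mem_filter.2 ⟨Finset.mem_univ _, ?_⟩
        have h1 : |hh M z - hh M x| ≤ |hh M z - hh M y| + |hh M y - hh M x| := by
          have := abs_sub_le (hh M z) (hh M y) (hh M x)
          exact this
        linarith
      refine (Finset.sum_le_sum_of_subset_of_nonneg hsub ?_).trans ?_
      · intro i _ _
        unfold Pool.Agent.TH161.KS.pr
        positivity
      · refine hVi.trans (le_of_eq ?_)
        rw [hT₂]; ring
  have hs0 : 0 < s := by linarith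
  have hb3 : (((Om α M).filter B₃).card : ℝ) ≤ n / 16 := by
    have h1 : (((Om α M).filter B₃).card : ℝ) ≤ ∑ z ∈ Z.filter (fun z => tau M y z < s),
        (((Om α M).filter fun f => K₀ * s ≤ |dd M y z f - (hh M z - hh M y)|).card : ℝ) := by
      have : (Om α M).filter B₃ ⊆ (Z.filter (fun z => tau M y z < s)).biUnion fun z =>
          (Om α M).filter fun f => K₀ * s ≤ |dd M y z f - (hh M z - hh M y)| := by
        intro f hf
        obtain ⟨hf1, z, hz, hz2⟩ := Finset.mem_filter.1 hf
        exact Finset.mem_biUnion.2 ⟨z, hz, Finset.mem_filter.2 ⟨hf1, hz2⟩⟩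
      have h2 := (Finset.card_le_card this).trans Finset.card_biUnion_le
      exact_mod_cast h2
    refine h1.trans ?_
    have h2 : ∀ z ∈ Z.filter (fun z => tau M y z < s),
        (((Om α M).filter fun f => K₀ * s ≤ |dd M y z f - (hh M z - hh M y)|).card : ℝ) ≤
          17 * Real.exp (-(K₀ / 18)) * n := by
      intro z hz
      have hz' := (Finset.mem_filter.1 hz).2
      rw [← pr_mul hne]
      refine mul_le_mul_of_nonneg_right ?_ hn.le
      refine (hstd.tail y z (hh M z - hh M y) s (K₀ * s) ?_).trans ?_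
      · exact hz'.le
      · have h3 : K₀ / 18 ≤ K₀ * s / (9 * (s + 1)) := by
          rw [div_le_div_iff₀ (by norm_num) (by positivity)]
          nlinarith
        gcongr
    refine (Finset.sum_le_card_nsmul _ _ _ h2).trans ?_
    rw [nsmul_eq_mul]
    have h3 : ((Z.filter (fun z => tau M y z < s)).card : ℝ) ≤ N := by
      refine le_trans ?_ hZN
      exact_mod_cast Finset.card_filter_le _ _
    calc _ ≤ N * (17 * Real.exp (-(K₀ / 18)) * n) := by
          apply mul_le_mul_of_nonneg_right h3
          positivity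
      _ = (17 * N * Real.exp (-(K₀ / 18))) * n := by ring
      _ ≤ 1 / 16 * n := by gcongr
      _ = n / 16 := by ring
  -- good maps
  set G : Finset (α → ℕ) := (Om α M).filter fun f => ¬ B₁ f ∧ ¬ B₂ f ∧ ¬ B₃ f with hG
  have hGcard : ∀ X : Finset (α → ℕ), X ⊆ Om α M → (X.card : ℝ) - 3 * n / 16 ≤ ((X ∩ G).card : ℝ) := by
    intro X hX
    have h1 : X ⊆ (X ∩ G) ∪ ((Om α M).filter B₁ ∪ ((Om α M).filter B₂ ∪ (Om α M).filter B₃)) := by
      intro f hf
      have hfO := hX hf
      by_cases h1 : B₁ f
      · exact Finset.mem_union_right _ (Finset.mem_union_left _ (Finset.mem_filter.2 ⟨hfO, h1⟩))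
      by_cases h2 : B₂ f
      · exact Finset.mem_union_right _ (Finset.mem_union_right _
          (Finset.mem_union_left _ (Finset.mem_filter.2 ⟨hfO, h2⟩)))
      by_cases h3 : B₃ f
      · exact Finset.mem_union_right _ (Finset.mem_union_right _
          (Finset.mem_union_right _ (Finset.mem_filter.2 ⟨hfO, h3⟩)))
      exact Finset.mem_union_left _ (Finset.mem_inter.2 ⟨hf, Finset.mem_filter.2 ⟨hfO, h1, h2, h3⟩⟩)
    have h2 : X.card ≤ (X ∩ G).card + (((Om α M).filter B₁).card + (((Om α M).filter B₂).card +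
        ((Om α M).filter B₃).card)) := by
      refine (Finset.card_le_card h1).trans ((Finset.card_union_le _ _).trans ?_)
      refine Nat.add_le_add_left ((Finset.card_union_le _ _).trans ?_) _
      exact Nat.add_le_add_left (Finset.card_union_le _ _) _
    have h3 : (X.card : ℝ) ≤ ((X ∩ G).card : ℝ) + ((((Om α M).filter B₁).card : ℝ) +
        ((((Om α M).filter B₂).card : ℝ) + (((Om α M).filter B₃).card : ℝ))) := by exact_mod_cast h2
    linarith
  have hGgood : ∀ f ∈ G,
        ((univ.filter fun z : α => |hh M z - hh M x| ≤ 2 * L * R ∧ δ ≤ |dd M (π z) z f|).card : ℝ) ≤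
          T₁ ∧
        ((univ.filter fun z : α => 2 * L * R < |hh M z - hh M x| ∧
          |hh M z - hh M y| / 2 ≤ |dd M y z f - (hh M z - hh M y)|).card : ℝ) ≤
          T₂ ∧
        (∀ z ∈ Z, tau M y z < s → |dd M y z f - (hh M z - hh M y)| < K₀ * s) := by
    intro f hf
    obtain ⟨-, h1, h2, h3⟩ := Finset.mem_filter.1 hf
    refine ⟨?_, ?_, ?_⟩
    · have := not_lt.1 h1
      rwa [Finset.filter_filter] at this
    · have := not_lt.1 h2
      rwa [Finset.filter_filter] at this
    · intro z hz hzs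
      by_contra hcon
      exact h3 ⟨z, Finset.mem_filter.2 ⟨hz, hzs⟩, not_lt.1 hcon⟩
  -- the case of large fluctuation
  have key : ∀ j : α, s ≤ tau M y j → ∃ q : ℤ,
      n / 4 ≤ (((Om α M).filter fun f => (f j : ℤ) - f y ≤ q).card : ℝ) ∧
      n / 4 ≤ (((Om α M).filter fun f => q + w ≤ (f j : ℤ) - f y).card : ℝ) := by
    intro j hj
    -- smallest q
    have hex : ∃ q : ℤ, n / 4 ≤ (((Om α M).filter fun f => (f j : ℤ) - f y ≤ q).card : ℝ) := by
      obtain ⟨b, hb⟩ := (((Om α M).image fun f => (f j : ℤ) - f y)).bddAbove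
      refine ⟨b, ?_⟩
      rw [Finset.filter_true_of_mem]
      · linarith
      · intro f hf
        exact hb (by exact_mod_cast Finset.mem_image_of_mem _ hf)
    have hbd : ∃ b : ℤ, ∀ q : ℤ, n / 4 ≤ (((Om α M).filter fun f => (f j : ℤ) - f y ≤ q).card : ℝ) →
        b ≤ q := by
      obtain ⟨b, hb⟩ := (((Om α M).image fun f => (f j : ℤ) - f y)).bddBelow
      refine ⟨b, ?_⟩
      intro q hq
      by_contra hcon
      push Not at hcon
      have : (Om α M).filter (fun f => (f j : ℤ) - f y ≤ q) = ∅ := by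
        rw [Finset.filter_eq_empty_iff]
        intro f hf
        have := hb (Finset.mem_coe.2 (Finset.mem_image_of_mem (fun f : α → ℕ => (f j : ℤ) - f y) hf))
        omega
      rw [this] at hq
      simp at hq
      linarith
    obtain ⟨b, hb⟩ := hbd
    obtain ⟨q, hq, hqmin⟩ := Int.exists_least_of_bdd ⟨b, hb⟩ hex
    refine ⟨q, hq, ?_⟩
    have h1 : (((Om α M).filter fun f => (f j : ℤ) - f y ≤ q - 1).card : ℝ) < n / 4 := by
      by_contra hcon
      push Not at hcon
      have := hqmin _ hcon
      omega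
    have h2 : (((Om α M).filter fun f => (q / unit α M : ℝ) ≤ dd M y j f ∧
        dd M y j f < q / unit α M + w / unit α M).card : ℝ) ≤ n / 2 := by
      rw [← pr_mul hne]
      have hb := hstd.ball y j (q / unit α M) (w / unit α M) (by positivity)
      have htau : 0 < tau M y j := by linarith
      have : pr α M (fun f => (q / unit α M : ℝ) ≤ dd M y j f ∧
        dd M y j f < q / unit α M + w / unit α M) ≤ 1 / 2 := by
        by_contra hcon
        push Not at hcon
        have h3 : s * (1 / 2) < tau M y j * pr α M (fun f => (q / unit α M : ℝ) ≤ dd M y j f ∧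
          dd M y j f < q / unit α M + w / unit α M) := by
          calc s * (1 / 2) ≤ tau M y j * (1 / 2) := by linarith
            _ < _ := by gcongr
        linarith
      calc _ ≤ 1 / 2 * n := by gcongr
        _ = n / 2 := by ring
    have h3 : Om α M ⊆ ((Om α M).filter fun f => (f j : ℤ) - f y ≤ q - 1) ∪
        (((Om α M).filter fun f => (q / unit α M : ℝ) ≤ dd M y j f ∧
        dd M y j f < q / unit α M + w / unit α M) ∪
        ((Om α M).filter fun f => q + w ≤ (f j : ℤ) - f y)) := by
      intro f hf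
      by_cases ha : (f j : ℤ) - f y ≤ q - 1
      · exact Finset.mem_union_left _ (Finset.mem_filter.2 ⟨hf, ha⟩)
      by_cases hb : q + w ≤ (f j : ℤ) - f y
      · exact Finset.mem_union_right _ (Finset.mem_union_right _ (Finset.mem_filter.2 ⟨hf, hb⟩))
      refine Finset.mem_union_right _ (Finset.mem_union_left _ (Finset.mem_filter.2 ⟨hf, ?_, ?_⟩))
      · unfold dd
        have : (q : ℝ) ≤ (f j : ℝ) - f y := by
          have : q ≤ (f j : ℤ) - f y := by omega
          exact_mod_cast this
        gcongr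
      · unfold dd
        rw [← add_div]
        have : (f j : ℝ) - f y < q + w := by
          have : (f j : ℤ) - f y < q + w := by omega
          exact_mod_cast this
        gcongr
    have h4 : (Om α M).card ≤ ((Om α M).filter fun f => (f j : ℤ) - f y ≤ q - 1).card +
        (((Om α M).filter fun f => (q / unit α M : ℝ) ≤ dd M y j f ∧
        dd M y j f < q / unit α M + w / unit α M).card +
        ((Om α M).filter fun f => q + w ≤ (f j : ℤ) - f y).card) := by
      refine (Finset.card_le_card h3).trans ((Finset.card_union_le _ _).trans ?_)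
      exact Nat.add_le_add_left (Finset.card_union_le _ _) _
    have h5 : n ≤ (((Om α M).filter fun f => (f j : ℤ) - f y ≤ q - 1).card : ℝ) +
        ((((Om α M).filter fun f => (q / unit α M : ℝ) ≤ dd M y j f ∧
        dd M y j f < q / unit α M + w / unit α M).card : ℝ) +
        (((Om α M).filter fun f => q + w ≤ (f j : ℤ) - f y).card : ℝ)) := by
      rw [hndef]
      exact_mod_cast h4
    linarith
  -- choice
  have hchoice : ∀ j : α, ∃ VU : Finset (α → ℕ) × Finset (α → ℕ),
      (VU.1 ⊆ G ∧ n ≤ 16 * (VU.1.card : ℝ)) ∧ (VU.2 ⊆ G ∧ n ≤ 16 * (VU.2.card : ℝ)) ∧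
      (s ≤ tau M y j → ∃ q : ℤ, (∀ g ∈ VU.1, (g j : ℤ) - g y ≤ q) ∧
        ∀ f ∈ VU.2, q + w ≤ (f j : ℤ) - f y) := by
    intro j
    by_cases hj : s ≤ tau M y j
    · obtain ⟨q, hq1, hq2⟩ := key j hj
      refine ⟨(((Om α M).filter fun f => (f j : ℤ) - f y ≤ q) ∩ G,
        ((Om α M).filter fun f => q + w ≤ (f j : ℤ) - f y) ∩ G),
        ⟨Finset.inter_subset_right, ?_⟩, ⟨Finset.inter_subset_right, ?_⟩, fun _ => ⟨q, ?_, ?_⟩⟩
      · have := hGcard _ (Finset.filter_subset (fun f : α → ℕ => (f j : ℤ) - f y ≤ q) (Om α M))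
        simp only
        linarith
      · have := hGcard _ (Finset.filter_subset (fun f : α → ℕ => q + w ≤ (f j : ℤ) - f y) (Om α M))
        simp only
        linarith
      · intro g hg
        exact (Finset.mem_filter.1 (Finset.mem_inter.1 hg).1).2
      · intro g hg
        exact (Finset.mem_filter.1 (Finset.mem_inter.1 hg).1).2
    · have hc : n ≤ 16 * (G.card : ℝ) := by
        have := hGcard (Om α M) (Finset.Subset.refl _)
        have h2 : ((Om α M ∩ G).card : ℝ) ≤ (G.card : ℝ) := by
          exact_mod_cast Finset.card_le_card Finset.inter_subset_right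
        linarith
      exact ⟨(G, G), ⟨Finset.Subset.refl _, hc⟩, ⟨Finset.Subset.refl _, hc⟩, fun h => absurd h hj⟩
  choose VU hVU using hchoice
  refine ⟨fun j => (VU j).1, fun j => (VU j).2, ?_⟩
  intro j hj
  obtain ⟨⟨hV1, hV2⟩, ⟨hU1, hU2⟩, hq⟩ := hVU j
  have hGO : G ⊆ Om α M := Finset.filter_subset _ _
  refine ⟨⟨hV1.trans hGO, ?_⟩, ⟨hU1.trans hGO, ?_⟩, ?_, hq⟩
  · have : ((Om α M).card : ℝ) ≤ 16 * ((VU j).1.card : ℝ) := hV2
    exact_mod_cast this
  · have : ((Om α M).card : ℝ) ≤ 16 * ((VU j).2.card : ℝ) := hU2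
    exact_mod_cast this
  · intro f hf
    rcases Finset.mem_union.1 hf with h | h
    · exact hGgood f (hV1 h)
    · exact hGgood f (hU1 h)

end Pool.Agent.TH541.KS_GOOD
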